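import Mathlib

/-!
# Word equations: values, substitutions and growth

Symbols are constants (`Sum.inl a`) and variables (`Sum.inr x`); a system is a pair of words,
indexed by `Bool`.
-/

set_option autoImplicit false
set_option linter.unusedSectionVars false

namespace Pool.Agent.H860Q

open Function

variable {A Λ : Type} [DecidableEq A] [DecidableEq Λ]

/-- value of a symbol -/
def evs (v : Λ → List A) (s : A ⊕ Λ) : List A := Sum.elim (fun a => [a]) v s

/-- value of a word -/
def ev (v : Λ → List A) (L : List (A ⊕ Λ)) : List A := L.flatMap (evs v)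

@[simp] theorem evs_inl (v : Λ → List A) (a : A) : evs v (Sum.inl a) = [a] := rfl
@[simp] theorem evs_inr (v : Λ → List A) (x : Λ) : evs v (Sum.inr x) = v x := rfl
@[simp] theorem ev_nil (v : Λ → List A) : ev v [] = [] := rfl
@[simp] theorem ev_cons (v : Λ → List A) (s : A ⊕ Λ) (L : List (A ⊕ Λ)) :
    ev v (s :: L) = evs v s ++ ev v L := by simp [ev]
@[simp] theorem ev_append (v : Λ → List A) (L R : List (A ⊕ Λ)) :
    ev v (L ++ R) = ev v L ++ ev v R := by simp [ev]

/-- replace the variable `x` by `y x` -/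
def subL (x : Λ) (y : A ⊕ Λ) (L : List (A ⊕ Λ)) : List (A ⊕ Λ) :=
  L.flatMap (fun s => if s = Sum.inr x then [y, Sum.inr x] else [s])

@[simp] theorem subL_nil (x : Λ) (y : A ⊕ Λ) : subL x y [] = [] := rfl
theorem subL_cons_self (x : Λ) (y : A ⊕ Λ) (L : List (A ⊕ Λ)) :
    subL x y (Sum.inr x :: L) = y :: Sum.inr x :: subL x y L := by simp [subL]
theorem subL_cons_ne (x : Λ) (y s : A ⊕ Λ) (L : List (A ⊕ Λ)) (h : s ≠ Sum.inr x) :
    subL x y (s :: L) = s :: subL x y L := by simp [subL, h]
@[simp] theorem subL_append (x : Λ) (y : A ⊕ Λ) (L R : List (A ⊕ Λ)) :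
    subL x y (L ++ R) = subL x y L ++ subL x y R := by simp [subL]

/-- the growth map -/
def gr (x : Λ) (y : A ⊕ Λ) (v : Λ → List A) : Λ → List A :=
  update v x (evs v y ++ v x)

theorem evs_gr_ne (x : Λ) (y : A ⊕ Λ) (v : Λ → List A) (s : A ⊕ Λ) (h : s ≠ Sum.inr x) :
    evs (gr x y v) s = evs v s := by
  rcases s with a | z
  · rfl
  · have : z ≠ x := fun e => h (by rw [e])
    simp [gr, this]

theorem evs_gr_self (x : Λ) (y : A ⊕ Λ) (v : Λ → List A) :
    evs (gr x y v) (Sum.inr x) = evs v y ++ v x := by simp [gr]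

theorem ev_gr (x : Λ) (y : A ⊕ Λ) (v : Λ → List A) (L : List (A ⊕ Λ)) :
    ev (gr x y v) L = ev v (subL x y L) := by
  induction L with
  | nil => rfl
  | cons s L ih =>
    by_cases h : s = Sum.inr x
    · subst h
      rw [subL_cons_self, ev_cons, evs_gr_self, ih]
      simp
    · rw [subL_cons_ne _ _ _ _ h, ev_cons, evs_gr_ne _ _ _ _ h, ih, ev_cons]

/-- number of occurrences of a variable -/
def occ (z : Λ) (L : List (A ⊕ Λ)) : ℕ := L.countP (fun s => decide (s = Sum.inr z))

@[simp] theorem occ_nil (z : Λ) : occ z ([] : List (A ⊕ Λ)) = 0 := rfl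
theorem occ_cons (z : Λ) (s : A ⊕ Λ) (L : List (A ⊕ Λ)) :
    occ z (s :: L) = occ z L + if s = Sum.inr z then 1 else 0 := by
  simp [occ, List.countP_cons]
@[simp] theorem occ_append (z : Λ) (L R : List (A ⊕ Λ)) : occ z (L ++ R) = occ z L + occ z R := by
  simp [occ]
theorem occ_pos (z : Λ) (L : List (A ⊕ Λ)) : 0 < occ z L ↔ Sum.inr z ∈ L := by
  simp [occ, List.countP_pos_iff]
theorem occ_zero (z : Λ) (L : List (A ⊕ Λ)) : occ z L = 0 ↔ Sum.inr z ∉ L := by
  rw [← occ_pos]; omega

theorem occ_subL (x z : Λ) (y : A ⊕ Λ) (L : List (A ⊕ Λ)) :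
    occ z (subL x y L) = occ z L + if y = Sum.inr z then occ x L else 0 := by
  induction L with
  | nil => simp
  | cons s L ih =>
    by_cases h : s = Sum.inr x
    · subst h
      rw [subL_cons_self, occ_cons, occ_cons, ih, occ_cons, occ_cons]
      by_cases h2 : y = Sum.inr z
      · simp only [h2, if_true]; omega
      · simp only [h2, if_false]; omega
    · rw [subL_cons_ne _ _ _ _ h, occ_cons, ih, occ_cons, occ_cons]
      simp only [h, if_false]
      by_cases h2 : y = Sum.inr z
      · simp only [h2, if_true]; omega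
      · simp only [h2, if_false]; omega

theorem length_subL (x : Λ) (y : A ⊕ Λ) (L : List (A ⊕ Λ)) :
    (subL x y L).length = L.length + occ x L := by
  induction L with
  | nil => simp
  | cons s L ih =>
    by_cases h : s = Sum.inr x
    · subst h
      rw [subL_cons_self, occ_cons]
      simp only [List.length_cons, ih, if_true]; omega
    · rw [subL_cons_ne _ _ _ _ h, occ_cons]
      simp only [List.length_cons, ih, h, if_false]; omega

theorem subL_of_not_mem (x : Λ) (y : A ⊕ Λ) (L : List (A ⊕ Λ)) (h : Sum.inr x ∉ L) :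
    subL x y L = L := by
  induction L with
  | nil => rfl
  | cons s L ih =>
    have h1 : s ≠ Sum.inr x := fun e => h (by rw [e]; exact List.mem_cons_self)
    rw [subL_cons_ne _ _ _ _ h1, ih (fun e => h (List.mem_cons_of_mem _ e))]

/-- systems -/
abbrev Sys (A Λ : Type) := Bool → List (A ⊕ Λ)

/-- total number of occurrences of a variable -/
def cnt (S : Sys A Λ) (z : Λ) : ℕ := occ z (S true) + occ z (S false)

def len (S : Sys A Λ) : ℕ := (S true).length + (S false).length

theorem cnt_eq (S : Sys A Λ) (z : Λ) (b : Bool) :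
    cnt S z = occ z (S b) + occ z (S (!b)) := by
  cases b <;> simp [cnt, add_comm]

theorem len_eq (S : Sys A Λ) (b : Bool) : len S = (S b).length + (S (!b)).length := by
  cases b <;> simp [len, add_comm]

def Solves (v : Λ → List A) (S : Sys A Λ) : Prop := ev v (S true) = ev v (S false)

theorem solves_iff (v : Λ → List A) (S : Sys A Λ) (b : Bool) :
    Solves v S ↔ ev v (S b) = ev v (S (!b)) := by
  cases b
  · simp only [Solves, Bool.not_false]; exact eq_comm
  · rfl

/-- The forward (shrinking) step of systems: on the side `b` the word starts with the variable `x`,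
on the other side with the symbol `y`; `x` is replaced by `y x` and `y` is cancelled. -/
def SStep (S S' : Sys A Λ) (b : Bool) (x : Λ) (y : A ⊕ Λ) : Prop :=
  ∃ R R', S b = Sum.inr x :: R ∧ S (!b) = y :: R' ∧ y ≠ Sum.inr x ∧
    S' b = Sum.inr x :: subL x y R ∧ S' (!b) = subL x y R'

theorem SStep.solves {S S' : Sys A Λ} {b : Bool} {x : Λ} {y : A ⊕ Λ} (h : SStep S S' b x y)
    (v : Λ → List A) : Solves (gr x y v) S ↔ Solves v S' := by
  obtain ⟨R, R', h1, h2, h3, h4, h5⟩ := h
  rw [solves_iff _ _ b, solves_iff _ _ b, h1, h2, h4, h5, ev_cons, ev_cons, ev_gr, ev_gr,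
    evs_gr_self, evs_gr_ne _ _ _ _ h3, ev_cons, evs_inr, List.append_assoc]
  exact List.append_right_inj _

theorem SStep.cnt_le {S S' : Sys A Λ} {b : Bool} {x : Λ} {y : A ⊕ Λ} (h : SStep S S' b x y)
    (hq : ∀ z, cnt S z ≤ 2) : ∀ z, cnt S' z ≤ 2 := by
  obtain ⟨R, R', h1, h2, h3, h4, h5⟩ := h
  intro z
  have hz := hq z
  have hx := hq x
  rw [cnt_eq _ _ b, h1, h2, occ_cons, occ_cons] at hz hx
  rw [cnt_eq _ _ b, h4, h5, occ_cons, occ_subL, occ_subL]
  simp only [h3, if_true, if_false] at hx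
  by_cases hyz : y = Sum.inr z
  · simp only [hyz, if_true] at hz ⊢
    omega
  · simp only [hyz, if_false] at hz ⊢
    omega

theorem SStep.len_eq' {S S' : Sys A Λ} {b : Bool} {x : Λ} {y : A ⊕ Λ} {R R' : List (A ⊕ Λ)}
    (h1 : S b = Sum.inr x :: R) (h2 : S (!b) = y :: R')
    (h4 : S' b = Sum.inr x :: subL x y R) (h5 : S' (!b) = subL x y R') :
    len S' + 1 = len S + (occ x R + occ x R') := by
  rw [len_eq _ b, len_eq _ b, h1, h2, h4, h5]
  simp only [List.length_cons, length_subL]
  omega

theorem SStep.len_le {S S' : Sys A Λ} {b : Bool} {x : Λ} {y : A ⊕ Λ} (h : SStep S S' b x y)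
    (hq : ∀ z, cnt S z ≤ 2) : len S' ≤ len S := by
  obtain ⟨R, R', h1, h2, h3, h4, h5⟩ := h
  have hx := hq x
  rw [cnt_eq _ _ b, h1, h2, occ_cons, occ_cons] at hx
  simp only [h3, if_true, if_false] at hx
  have := SStep.len_eq' h1 h2 h4 h5
  omega

end Pool.Agent.H860Q
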