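import Pool.Agent.H860Q.Rat

/-!
# From infinitely many solutions to large exponents
-/

set_option autoImplicit false
set_option linter.unusedSectionVars false

namespace Pool.Agent.H860Q

open Function

variable {A Λ M : Type} [DecidableEq A] [DecidableEq Λ] [Monoid M]

/-- Infinitely many solutions of one type are arbitrarily long. -/
theorem unbounded_of_infinite [Finite A] [Fintype Λ] (T : Set (Λ → List A)) (hT : T.Infinite)
    (B : ℕ) : ∃ v ∈ T, B ≤ ∑ z, (v z).length := by
  by_contra hcon
  push Not at hcon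
  apply hT
  refine Set.Finite.subset (Set.Finite.pi' (t := fun _ : Λ => {w : List A | w.length ≤ B})
    (fun _ => List.finite_length_le A B)) ?_
  intro v hv z
  exact (length_le_size v z).trans (hcon v hv).le

/-- If a quadratic system has infinitely many solutions of types in `Acc`, then it has such
solutions of arbitrarily large exponent. -/
theorem pump_of_infinite [Finite A] [Fintype Λ] [Finite M] (φ : Mor A M) (S0 : Sys A Λ)
    (hq : ∀ z, cnt S0 z ≤ 2) (Acc : Set (Λ → M))
    (h : {v : Λ → List A | Solves v S0 ∧ (fun z => φ.f (v z)) ∈ Acc}.Infinite) (κ : ℕ) :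
    ∃ v : Λ → List A, Solves v S0 ∧ (fun z => φ.f (v z)) ∈ Acc ∧
      ∃ x, ∃ c, c ≠ [] ∧ pw c κ <:+: v x := by
  have h1 : ∃ m0 ∈ Acc, {v : Λ → List A | Solves v S0 ∧ (fun z => φ.f (v z)) = m0}.Infinite := by
    by_contra hcon
    push Not at hcon
    apply h
    have : {v : Λ → List A | Solves v S0 ∧ (fun z => φ.f (v z)) ∈ Acc} =
        ⋃ m0 ∈ Acc, {v : Λ → List A | Solves v S0 ∧ (fun z => φ.f (v z)) = m0} := by
      ext v
      simp only [Set.mem_iUnion]
      constructor
      · rintro ⟨a, b⟩; exact ⟨_, b, a, rfl⟩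
      · rintro ⟨m0, b, a, rfl⟩; exact ⟨a, b⟩
    rw [this]
    exact Set.Finite.biUnion (Set.toFinite _) (fun m hm => hcon m hm)
  obtain ⟨m0, hm0, hinf⟩ := h1
  obtain ⟨v, e1, e2, x, -, c, hc, hx⟩ := core φ S0 hq m0 (fun B => by
    obtain ⟨v, hv, hB⟩ := unbounded_of_infinite _ hinf B
    exact ⟨v, hv.1, fun z => congrFun hv.2 z, hB⟩) κ
  exact ⟨v, e1, by rw [show (fun z => φ.f (v z)) = m0 from funext e2]; exact hm0, x, c, hc, hx⟩

/-- a positive word as a word over the letters and their inverses -/
def pl (w : List A) : List (A × Bool) := w.map (fun a => (a, true))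

theorem reduce_pl (w : List A) : FreeGroup.reduce (pl w) = pl w := by
  induction w with
  | nil => rfl
  | cons a w ih =>
    show FreeGroup.reduce ((a, true) :: pl w) = _
    rw [FreeGroup.reduce.cons, ih]
    rcases w with _ | ⟨b, w⟩
    · rfl
    · simp [pl]

theorem pl_injective : Injective (pl : List A → List (A × Bool)) :=
  List.map_injective_iff.2 (fun a b h => (Prod.mk.inj h).1)

theorem pl_pw (c : List A) (n : ℕ) : pl (pw c n) = (List.replicate n (pl c)).flatten := by
  simp [pl, pw, List.map_flatten]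

end Pool.Agent.H860Q
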