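import Pool.Agent.H860Q.Basic

/-!
# Growth sequences and the twist
-/

set_option autoImplicit false
set_option linter.unusedSectionVars false

namespace Pool.Agent.H860Q

open Function

/-! ### The J-order of a finite monoid -/

/-- `a` is below `b` in the J-order -/
def LJ {M : Type} [Monoid M] (a b : M) : Prop := ∃ s t, a = s * b * t

section monoid
variable {M : Type} [Monoid M]

theorem LJ.refl (a : M) : LJ a a := ⟨1, 1, by simp⟩
theorem LJ.trans {a b c : M} (h : LJ a b) (h' : LJ b c) : LJ a c := by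
  obtain ⟨s, t, rfl⟩ := h
  obtain ⟨s', t', rfl⟩ := h'
  exact ⟨s * s', t' * t, by simp [mul_assoc]⟩
theorem LJ.mul_left (a b : M) : LJ (a * b) b := ⟨a, 1, by simp⟩
theorem LJ.mul_right (a b : M) : LJ (a * b) a := ⟨1, b, by simp⟩

theorem stab [Finite M] (a x y b : M) (h : y = a * x * y * b) : ∃ t, y = t * (x * y) := by
  have hn : ∀ n : ℕ, y = (a * x) ^ n * y * b ^ n := by
    intro n
    induction n with
    | zero => simp
    | succ n ih =>
      calc y = a * x * y * b := h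
        _ = a * x * ((a * x) ^ n * y * b ^ n) * b := by rw [← ih]
        _ = (a * x) ^ (n + 1) * y * b ^ (n + 1) := by
          rw [pow_succ' (a * x), pow_succ b]; simp [mul_assoc]
  obtain ⟨i, j, hij, he⟩ : ∃ i j : ℕ, i < j ∧ (a * x) ^ i = (a * x) ^ j := by
    obtain ⟨i, j, hne, he⟩ := Finite.exists_ne_map_eq_of_infinite (fun n : ℕ => (a * x) ^ n)
    rcases lt_or_gt_of_ne hne with h1 | h1
    · exact ⟨i, j, h1, he⟩
    · exact ⟨j, i, h1, he.symm⟩
  have h2 : y = (a * x) ^ (j - i) * y := by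
    have h3 := hn i
    have h4 : (a * x) ^ j = (a * x) ^ (j - i) * (a * x) ^ i := by
      rw [← pow_add]; congr 1; omega
    calc y = (a * x) ^ i * y * b ^ i := h3
      _ = (a * x) ^ j * y * b ^ i := by rw [he]
      _ = (a * x) ^ (j - i) * ((a * x) ^ i * y * b ^ i) := by rw [h4]; simp only [mul_assoc]
      _ = (a * x) ^ (j - i) * y := by rw [← h3]
  obtain ⟨k, hk⟩ : ∃ k, j - i = k + 1 := ⟨j - i - 1, by omega⟩
  refine ⟨(a * x) ^ k * a, ?_⟩
  rw [hk, pow_succ] at h2
  calc y = (a * x) ^ k * (a * x) * y := h2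
    _ = (a * x) ^ k * a * (x * y) := by simp [mul_assoc]

theorem glue [Finite M] {e x y z : M} (h1 : LJ e (x * y)) (h2 : LJ e (y * z)) (h3 : LJ y e) :
    LJ e (x * y * z) := by
  obtain ⟨s, t, h⟩ := h3.trans h1
  obtain ⟨u, hu⟩ := stab s x y t (by rw [mul_assoc s x y]; exact h)
  refine h2.trans ⟨u, 1, ?_⟩
  rw [mul_one, ← mul_assoc, ← hu]

end monoid

/-- a morphism from words to a monoid -/
structure Mor (A M : Type) [Monoid M] where
  f : List A → M
  one : f [] = 1
  mul : ∀ x y, f (x ++ y) = f x * f y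

variable {A Λ M : Type} [DecidableEq A] [DecidableEq Λ] [Monoid M]

theorem gr_self (x : Λ) (y : A ⊕ Λ) (v : Λ → List A) : gr x y v x = evs v y ++ v x := by simp [gr]
theorem gr_ne (x z : Λ) (y : A ⊕ Λ) (v : Λ → List A) (h : z ≠ x) : gr x y v z = v z := by
  simp [gr, h]
theorem suffix_gr (x z : Λ) (y : A ⊕ Λ) (v : Λ → List A) : v z <:+ gr x y v z := by
  by_cases h : z = x
  · subst h; rw [gr_self]; exact List.suffix_append _ _
  · rw [gr_ne _ _ _ _ h]

/-- powers of a word -/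
def pw (c : List A) (n : ℕ) : List A := (List.replicate n c).flatten

@[simp] theorem pw_zero (c : List A) : pw c 0 = [] := rfl
theorem pw_succ (c : List A) (n : ℕ) : pw c (n + 1) = c ++ pw c n := by
  simp [pw, List.replicate_succ]
theorem pw_succ' (c : List A) (n : ℕ) : pw c (n + 1) = pw c n ++ c := by
  induction n with
  | zero => simp [pw_succ]
  | succ n ih => rw [pw_succ, ih, ← List.append_assoc, ← pw_succ, ih]
theorem pw_add (c : List A) (m n : ℕ) : pw c (m + n) = pw c m ++ pw c n := by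
  induction m with
  | zero => simp
  | succ m ih => rw [Nat.succ_add, pw_succ, ih, pw_succ, List.append_assoc]
theorem pw_comm (c : List A) (n : ℕ) : c ++ pw c n = pw c n ++ c := by
  rw [← pw_succ, pw_succ']
theorem Mor.pw (φ : Mor A M) (c : List A) (n : ℕ) : φ.f (pw c n) = φ.f c ^ n := by
  induction n with
  | zero => simp [φ.one]
  | succ n ih => rw [pw_succ, φ.mul, ih, pow_succ']

/-- A word of large exponent occurs in the value of a letter of `D`. -/
def PumpAt (φ : Mor A M) (S : Sys A Λ) (m : Λ → M) (D : Set Λ) : Prop :=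
  ∀ κ : ℕ, ∃ v : Λ → List A, Solves v S ∧ (∀ z, φ.f (v z) = m z) ∧
    ∃ x ∈ D, ∃ c, c ≠ [] ∧ pw c κ <:+: v x

/-- the combinatorial data of a periodic growth sequence -/
structure Gr (φ : Mor A M) (Λ : Type) [DecidableEq Λ] where
  S : ℕ → Sys A Λ
  X : ℕ → Λ
  Y : ℕ → A ⊕ Λ
  B : ℕ → Bool
  V : ℕ → Λ → List A
  p : ℕ
  hp : 0 < p
  step : ∀ n, SStep (S (n + 1)) (S n) (B n) (X n) (Y n)
  hV : ∀ n, V (n + 1) = gr (X n) (Y n) (V n)
  perS : ∀ n, S (n + p) = S n
  perX : ∀ n, X (n + p) = X n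
  perY : ∀ n, Y (n + p) = Y n
  perV : ∀ n z, φ.f (V (n + p) z) = φ.f (V n z)
  sol : Solves (V 0) (S 0)
  hlen : ∀ n, len (S (n + 1)) = len (S n)
  hY : ∀ n, evs (V n) (Y n) ≠ []

namespace Gr

variable {φ : Mor A M} (G : Gr φ Λ)

theorem solves (n : ℕ) : Solves (G.V n) (G.S n) := by
  induction n with
  | zero => exact G.sol
  | succ n ih => rw [G.hV]; exact ((G.step n).solves _).2 ih

theorem suffix_succ (n : ℕ) (z : Λ) : G.V n z <:+ G.V (n + 1) z := by
  rw [G.hV]; exact suffix_gr _ _ _ _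

theorem suffix {n m : ℕ} (h : n ≤ m) (z : Λ) : G.V n z <:+ G.V m z := by
  induction h with
  | refl => exact List.suffix_refl _
  | step _ ih => exact ih.trans (G.suffix_succ _ z)

theorem perX' (n k : ℕ) : G.X (n + k * G.p) = G.X n := by
  induction k with
  | zero => simp
  | succ k ih => rw [Nat.succ_mul, ← add_assoc, G.perX, ih]
theorem perS' (n k : ℕ) : G.S (n + k * G.p) = G.S n := by
  induction k with
  | zero => simp
  | succ k ih => rw [Nat.succ_mul, ← add_assoc, G.perS, ih]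
theorem perV' (n k : ℕ) (z : Λ) : φ.f (G.V (n + k * G.p) z) = φ.f (G.V n z) := by
  induction k with
  | zero => simp
  | succ k ih => rw [Nat.succ_mul, ← add_assoc, G.perV, ih]

theorem le_mul (m n : ℕ) : m ≤ n + m * G.p := by
  have := Nat.le_mul_of_pos_right m G.hp
  omega

theorem lj_level (n m : ℕ) (z : Λ) : LJ (φ.f (G.V n z)) (φ.f (G.V m z)) := by
  rw [← G.perV' n m z]
  obtain ⟨u, hu⟩ := G.suffix (G.le_mul m n) z
  rw [← hu, φ.mul]
  exact LJ.mul_left _ _

theorem chg (n : ℕ) (h : G.X (n + 1) ≠ G.X n) :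
    G.B (n + 1) = (!G.B n) ∧ G.Y n = Sum.inr (G.X (n + 1)) := by
  obtain ⟨R, R', h1, h2, h3, -, -⟩ := G.step n
  obtain ⟨T, T', -, -, -, h4, h5⟩ := G.step (n + 1)
  have hb : G.B (n + 1) = (!G.B n) := by
    by_contra hb
    have hb' : G.B (n + 1) = G.B n := by
      revert hb; cases G.B (n + 1) <;> cases G.B n <;> simp
    rw [hb', h1] at h4
    exact h (Sum.inr_injective (List.cons.inj h4).1).symm
  refine ⟨hb, ?_⟩
  rw [hb, h2] at h4
  exact (List.cons.inj h4).1

theorem chg_V (n : ℕ) (h : G.X (n + 1) ≠ G.X n) :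
    G.V (n + 1) (G.X n) = G.V n (G.X (n + 1)) ++ G.V n (G.X n) := by
  rw [G.hV, gr_self, (G.chg n h).2, evs_inr]

theorem lj_succ (n a b : ℕ) : LJ (φ.f (G.V a (G.X n))) (φ.f (G.V b (G.X (n + 1)))) := by
  by_cases h : G.X (n + 1) = G.X n
  · rw [h]; exact G.lj_level _ _ _
  · refine (G.lj_level a (n + 1) _).trans (LJ.trans ?_ (G.lj_level n b _))
    rw [G.chg_V n h, φ.mul]
    exact LJ.mul_right _ _

theorem lj_add (n k a b : ℕ) : LJ (φ.f (G.V a (G.X n))) (φ.f (G.V b (G.X (n + k)))) := by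
  induction k generalizing b with
  | zero => exact G.lj_level _ _ _
  | succ k ih => exact (ih 0).trans (G.lj_succ _ _ _)

theorem lj_all (i j a b : ℕ) : LJ (φ.f (G.V a (G.X i))) (φ.f (G.V b (G.X j))) := by
  rw [← G.perX' j i]
  have h : i ≤ j + i * G.p := G.le_mul i j
  obtain ⟨k, hk⟩ := Nat.exists_eq_add_of_le h
  rw [hk]
  exact G.lj_add _ _ _ _

/-- the reference element -/
def e : M := φ.f (G.V 0 (G.X 0))

theorem e_le (n j : ℕ) : LJ G.e (φ.f (G.V n (G.X j))) := G.lj_all _ _ _ _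
theorem le_e (n j : ℕ) : LJ (φ.f (G.V n (G.X j))) G.e := G.lj_all _ _ _ _

theorem long (i H : ℕ) : ∃ N, ∀ n, N ≤ n → H ≤ (G.V n (G.X i)).length := by
  have : ∃ N, H ≤ (G.V N (G.X i)).length := by
    induction H with
    | zero => exact ⟨0, Nat.zero_le _⟩
    | succ H ih =>
      obtain ⟨N, hN⟩ := ih
      refine ⟨i + N * G.p + 1, ?_⟩
      have h1 := G.perX' i N
      rw [G.hV, h1, gr_self, List.length_append]
      have h2 := (G.suffix (G.le_mul N i) (G.X i)).length_le
      have h3 := List.length_pos_iff.2 (G.hY (i + N * G.p))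
      omega
  obtain ⟨N, hN⟩ := this
  exact ⟨N, fun n hn => hN.trans (G.suffix hn _).length_le⟩

theorem multi_large (hm : ∃ n, G.X (n + 1) ≠ G.X n) (N : ℕ) : ∃ n, N ≤ n ∧ G.X (n + 1) ≠ G.X n := by
  obtain ⟨n, hn⟩ := hm
  refine ⟨n + N * G.p, G.le_mul N n, ?_⟩
  rw [G.perX', show n + N * G.p + 1 = n + 1 + N * G.p by ring, G.perX']
  exact hn

theorem lose_large (hm : ∃ n, G.X (n + 1) ≠ G.X n) (i N : ℕ) :
    ∃ n, N ≤ n ∧ G.X n = G.X i ∧ G.X (n + 1) ≠ G.X n := by
  classical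
  have hex : ∃ k, G.X (i + N * G.p + k + 1) ≠ G.X i := by
    by_contra hcon
    push Not at hcon
    obtain ⟨n, hn, hne⟩ := G.multi_large hm (i + N * G.p + 1)
    apply hne
    obtain ⟨k, rfl⟩ := Nat.exists_eq_add_of_le hn
    have h1 := hcon k
    have h2 := hcon (k + 1)
    rw [show i + N * G.p + 1 + k + 1 = i + N * G.p + (k + 1) + 1 by ring, h2,
      show i + N * G.p + 1 + k = i + N * G.p + k + 1 by ring, h1]
  have h1 := Nat.find_spec hex
  have h2 : G.X (i + N * G.p + Nat.find hex) = G.X i := by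
    rcases hk : Nat.find hex with _ | k
    · exact G.perX' i N
    · have := Nat.find_min hex (m := k) (by omega)
      push Not at this
      exact this
  refine ⟨i + N * G.p + Nat.find hex, ?_, h2, ?_⟩
  · have := G.le_mul N i; omega
  · rw [h2]; exact h1

theorem deep (hm : ∃ n, G.X (n + 1) ≠ G.X n) (i H : ℕ) : ∃ N, ∀ n, N ≤ n →
    ∃ z1 z2, G.V n (G.X i) = z1 ++ z2 ∧ H ≤ z2.length ∧ LJ (φ.f z1) G.e := by
  obtain ⟨N, hN⟩ := G.long i H
  obtain ⟨k, hk, hk1, hk2⟩ := G.lose_large hm i N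
  refine ⟨k + 1, fun n hn => ?_⟩
  obtain ⟨u, hu⟩ := G.suffix hn (G.X i)
  have h1 := G.chg_V k hk2
  rw [hk1] at h1
  refine ⟨u ++ G.V k (G.X (k + 1)), G.V k (G.X i), ?_, hN k hk, ?_⟩
  · rw [← hu, h1, List.append_assoc]
  · rw [φ.mul]
    exact (LJ.mul_left _ _).trans (G.le_e _ _)

/-- the common value of the two words at level `n` -/
def base (n : ℕ) : List A := ev (G.V n) (G.S n true)

theorem base_eq (n : ℕ) (b : Bool) : ev (G.V n) (G.S n b) = G.base n := by
  cases b
  · exact (G.solves n).symm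
  · rfl

theorem base_succ (n : ℕ) : G.base (n + 1) = evs (G.V n) (G.Y n) ++ G.base n := by
  obtain ⟨R, R', h1, h2, h3, h4, h5⟩ := G.step n
  rw [← G.base_eq (n + 1) (!G.B n), h2, ev_cons, G.hV, evs_gr_ne _ _ _ _ h3, ev_gr, ← h5,
    G.base_eq]

theorem base_head (n : ℕ) : ∃ T, G.base n = G.V n (G.X n) ++ T := by
  obtain ⟨R, R', h1, h2, h3, h4, h5⟩ := G.step n
  exact ⟨ev (G.V n) (subL (G.X n) (G.Y n) R), by
    rw [← G.base_eq n (G.B n), h4, ev_cons, evs_inr]⟩

theorem good_prefix [Finite M] (n : ℕ) : ∃ Z E, G.base n = Z ++ E ∧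
    E.length ≤ (G.base 0).length ∧ LJ G.e (φ.f Z) := by
  induction n with
  | zero => exact ⟨[], G.base 0, by simp, le_refl _, ⟨G.e, 1, by simp [φ.one]⟩⟩
  | succ n ih =>
    obtain ⟨Z, E, h1, h2, h3⟩ := ih
    obtain ⟨T, hT⟩ := G.base_head n
    have hgood : LJ G.e (φ.f (evs (G.V n) (G.Y n)) * φ.f (G.V n (G.X n))) := by
      rw [← φ.mul, ← gr_self, ← G.hV]; exact G.e_le _ _
    rcases le_or_gt (G.V n (G.X n)).length Z.length with h | h
    · have hpre : G.V n (G.X n) <+: Z := by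
        refine List.prefix_of_prefix_length_le (l₃ := G.base n) ?_ ?_ h
        · rw [hT]; exact List.prefix_append _ _
        · rw [h1]; exact List.prefix_append _ _
      obtain ⟨ρ, hρ⟩ := hpre
      refine ⟨evs (G.V n) (G.Y n) ++ Z, E, ?_, h2, ?_⟩
      · rw [G.base_succ, h1, List.append_assoc]
      · rw [← hρ, φ.mul, φ.mul, ← mul_assoc]
        refine glue hgood ?_ (G.le_e _ _)
        rw [← φ.mul, hρ]; exact h3
    · refine ⟨evs (G.V n) (G.Y n) ++ G.V n (G.X n), T, ?_, ?_, ?_⟩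
      · rw [G.base_succ, hT, List.append_assoc]
      · have h4 := congrArg List.length hT
        rw [h1] at h4
        simp only [List.length_append] at h4
        omega
      · rw [φ.mul]; exact hgood

theorem occ_good [Finite M] (hm : ∃ n, G.X (n + 1) ≠ G.X n) (i : ℕ) : ∃ N, ∀ n, N ≤ n →
    ∀ L R, G.base n = L ++ G.V n (G.X i) ++ R → LJ G.e (φ.f (L ++ G.V n (G.X i))) := by
  obtain ⟨N, hN⟩ := G.deep hm i (G.base 0).length
  refine ⟨N, fun n hn L R hb => ?_⟩
  obtain ⟨z1, z2, hz, hz2, hz1⟩ := hN n hn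
  obtain ⟨Z, E, h1, h2, h3⟩ := G.good_prefix n
  rcases le_or_gt (L ++ G.V n (G.X i)).length Z.length with h | h
  · have hpre : L ++ G.V n (G.X i) <+: Z := by
      refine List.prefix_of_prefix_length_le (l₃ := G.base n) ?_ ?_ h
      · rw [hb]; exact List.prefix_append _ _
      · rw [h1]; exact List.prefix_append _ _
    obtain ⟨ρ, hρ⟩ := hpre
    rw [← hρ, φ.mul] at h3
    exact h3.trans (LJ.mul_right _ _)
  · have hpre : Z <+: L ++ G.V n (G.X i) := by
      refine List.prefix_of_prefix_length_le (l₃ := G.base n) ?_ ?_ h.le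
      · rw [h1]; exact List.prefix_append _ _
      · rw [hb]; exact List.prefix_append _ _
    obtain ⟨ρ, hρ⟩ := hpre
    have hρl : ρ.length ≤ z2.length := by
      have h4 : ρ.length ≤ E.length := by
        have h5 : (L ++ G.V n (G.X i)).length ≤ (Z ++ E).length := by
          rw [← h1, hb]; simp
        rw [← hρ] at h5
        simp only [List.length_append] at h5
        omega
      omega
    have hsuf : ρ <:+ z2 := by
      refine List.suffix_of_suffix_length_le (l₃ := L ++ G.V n (G.X i)) ?_ ?_ hρl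
      · rw [← hρ]; exact List.suffix_append _ _
      · rw [hz, ← List.append_assoc]; exact List.suffix_append _ _
    obtain ⟨z3, hz3⟩ := hsuf
    have hZ : Z = L ++ (z1 ++ z3) := by
      have : Z ++ ρ = L ++ (z1 ++ z3) ++ ρ := by
        rw [hρ, hz, ← hz3]; simp
      exact List.append_cancel_right this
    rw [← hρ, hZ, φ.mul, φ.mul L]
    refine glue ?_ ?_ ?_
    · rw [← φ.mul, ← hZ]; exact h3
    · rw [← φ.mul, List.append_assoc, hz3, ← hz]; exact G.e_le _ _
    · rw [φ.mul]; exact (LJ.mul_right _ _).trans hz1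

/-! ### coherent letters -/

theorem count_rest (n : ℕ) {R R' : List (A ⊕ Λ)} (h1 : G.S (n + 1) (G.B n) = Sum.inr (G.X n) :: R)
    (h2 : G.S (n + 1) (!G.B n) = G.Y n :: R')
    (h4 : G.S n (G.B n) = Sum.inr (G.X n) :: subL (G.X n) (G.Y n) R)
    (h5 : G.S n (!G.B n) = subL (G.X n) (G.Y n) R') :
    occ (G.X n) R + occ (G.X n) R' = 1 := by
  have := SStep.len_eq' h1 h2 h4 h5
  have h := G.hlen n
  omega

theorem coherent (hm : ∃ n, G.X (n + 1) ≠ G.X n) (N : ℕ) :
    ∃ n i, N ≤ n ∧ occ (G.X i) (G.S n true) = 1 ∧ occ (G.X i) (G.S n false) = 1 := by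
  obtain ⟨n, hn, hne⟩ := G.multi_large hm N
  obtain ⟨hB, hYn⟩ := G.chg n hne
  obtain ⟨R, R', h1, h2, h3, h4, h5⟩ := G.step n
  obtain ⟨T, T', g1, g2, g3, g4, g5⟩ := G.step (n + 1)
  have c1 := G.count_rest n h1 h2 h4 h5
  have c2 := G.count_rest (n + 1) g1 g2 g4 g5
  have key : ∀ (m : ℕ) (z : Λ), occ z (G.S m (G.B n)) = 1 → occ z (G.S m (!G.B n)) = 1 →
      occ z (G.S m true) = 1 ∧ occ z (G.S m false) = 1 := by
    intro m z; cases G.B n <;> simp +contextual
  rw [hB, Bool.not_not] at g5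
  rw [hB] at g4
  have e1 : occ (G.X (n + 1)) (G.S (n + 1) (G.B n)) = occ (G.X (n + 1)) T' := by
    rw [g5, occ_subL, if_neg g3, add_zero]
  have e2 : occ (G.X (n + 1)) (G.S (n + 1) (!G.B n)) = occ (G.X (n + 1)) T + 1 := by
    rw [g4, occ_cons, occ_subL, if_neg g3]; simp
  rw [h1, occ_cons, if_neg (fun e => hne (Sum.inr_injective e).symm), add_zero] at e1
  rw [h2, hYn, occ_cons, if_pos rfl] at e2
  rw [hYn] at h2 h4 h5
  rcases Nat.eq_zero_or_pos (occ (G.X (n + 1)) R) with hA | hA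
  · rcases Nat.eq_zero_or_pos (occ (G.X n) R') with hB' | hB'
    · -- level n, letter X (n+1)
      refine ⟨n, n + 1, hn, ?_⟩
      apply key
      · rw [h4, occ_cons, occ_subL, if_pos rfl, if_neg (fun e => hne (Sum.inr_injective e).symm)]
        omega
      · rw [h5, occ_subL, if_pos rfl]; omega
    · refine ⟨n + 1, n, by omega, ?_⟩
      apply key
      · rw [h1, occ_cons, if_pos rfl]; omega
      · rw [h2, occ_cons, if_neg (fun e => hne (Sum.inr_injective e))]; omega
  · refine ⟨n + 1, n + 1, by omega, ?_⟩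
    apply key
    · rw [h1, occ_cons, if_neg (fun e => hne (Sum.inr_injective e).symm)]; omega
    · rw [h2, occ_cons, if_pos rfl]; omega

end Gr

end Pool.Agent.H860Q
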