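import Pool.Agent.H860Q.Pump

/-!
# Descending paths of systems
-/

set_option autoImplicit false
set_option linter.unusedSectionVars false

namespace Pool.Agent.H860Q

open Function

variable {A Λ M : Type} [DecidableEq A] [DecidableEq Λ] [Monoid M]

/-- A state: a system, a valuation, and the set of letters that are alive. -/
structure St (A Λ : Type) where
  S : Sys A Λ
  v : Λ → List A
  D : Set Λ

/-- remove a variable -/
def era (x : Λ) (L : List (A ⊕ Λ)) : List (A ⊕ Λ) := L.filter (fun s => decide (s ≠ Sum.inr x))

theorem ev_era (v : Λ → List A) (x : Λ) (L : List (A ⊕ Λ)) :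
    ev (update v x []) L = ev v (era x L) := by
  induction L with
  | nil => rfl
  | cons s L ih =>
    by_cases h : s = Sum.inr x
    · subst h
      rw [ev_cons, ih]
      simp [era]
    · have : era x (s :: L) = s :: era x L := by simp [era, h]
      rw [this, ev_cons, ev_cons, ih]
      congr 1
      rcases s with a | z
      · rfl
      · have : z ≠ x := fun e => h (by rw [e])
        simp [this]

theorem occ_era_le (x z : Λ) (L : List (A ⊕ Λ)) : occ z (era x L) ≤ occ z L :=
  List.Sublist.countP_le List.filter_sublist

theorem length_era_le (x : Λ) (L : List (A ⊕ Λ)) : (era x L).length ≤ L.length :=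
  List.length_filter_le _ _

theorem length_era_lt (x : Λ) (R : List (A ⊕ Λ)) :
    (era x (Sum.inr x :: R)).length < (Sum.inr x :: R : List (A ⊕ Λ)).length := by
  have : era x (Sum.inr x :: R : List (A ⊕ Λ)) = era x R := by simp [era]
  rw [this, List.length_cons]
  exact Nat.lt_succ_of_le (length_era_le _ _)

/-- the forward steps -/
inductive Fw : St A Λ → St A Λ → Prop
  | drop (S S' : Sys A Λ) (v : Λ → List A) (D : Set Λ) (s : A ⊕ Λ)
      (h1 : S true = s :: S' true) (h2 : S false = s :: S' false) : Fw ⟨S, v, D⟩ ⟨S', v, D⟩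
  | erase (S : Sys A Λ) (v : Λ → List A) (D : Set Λ) (x : Λ) (b : Bool) (R : List (A ⊕ Λ))
      (h : S b = Sum.inr x :: R) (hv : v x = []) :
      Fw ⟨S, v, D⟩ ⟨fun b => era x (S b), v, D \ {x}⟩
  | sub (S S' : Sys A Λ) (v : Λ → List A) (D : Set Λ) (b : Bool) (x : Λ) (y : A ⊕ Λ)
      (r : List A) (h : SStep S S' b x y) (hy : evs v y ≠ []) (hv : v x = evs v y ++ r) :
      Fw ⟨S, v, D⟩ ⟨S', update v x r, D⟩

/-- validity of a state -/
structure Valid (s : St A Λ) : Prop where
  sol : Solves s.v s.S
  q : ∀ z, cnt s.S z ≤ 2
  al : ∀ b z, Sum.inr z ∈ s.S b → z ∈ s.D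
  dead : ∀ z, z ∉ s.D → s.v z = []

theorem gr_update (v : Λ → List A) (x : Λ) (y : A ⊕ Λ) (r : List A) (hy : y ≠ Sum.inr x)
    (hv : v x = evs v y ++ r) : gr x y (update v x r) = v := by
  funext z
  by_cases hz : z = x
  · subst hz
    rw [gr_self, update_self, hv]
    congr 1
    rcases y with a | w
    · rfl
    · have : w ≠ z := fun e => hy (by rw [e])
      simp [this]
  · rw [gr_ne _ _ _ _ hz, update_of_ne hz]

theorem mem_subL {x : Λ} {y s : A ⊕ Λ} {L : List (A ⊕ Λ)} (h : s ∈ subL x y L) :
    s = y ∨ s ∈ L := by
  rw [subL, List.mem_flatMap] at h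
  obtain ⟨t, ht, hs⟩ := h
  by_cases h1 : t = Sum.inr x
  · rw [if_pos h1] at hs
    simp only [List.mem_cons, List.not_mem_nil, or_false] at hs
    rcases hs with h | h
    · exact Or.inl h
    · right; rw [h, ← h1]; exact ht
  · rw [if_neg h1] at hs
    simp only [List.mem_cons, List.not_mem_nil, or_false] at hs
    right; rw [hs]; exact ht

theorem Fw.valid {s s' : St A Λ} (h : Fw s s') (hs : Valid s) : Valid s' := by
  cases h with
  | drop S S' v D s h1 h2 =>
    obtain ⟨a, b, c, d⟩ := hs
    refine ⟨?_, fun z => ?_, ?_, d⟩
    · have := a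
      simp only [Solves, h1, h2, ev_cons] at this ⊢
      exact List.append_cancel_left this
    · have := b z
      simp only [cnt, h1, h2, occ_cons] at this ⊢
      omega
    · intro b z hz
      cases b
      · exact c false z (by show _ ∈ S false; rw [h2]; exact List.mem_cons_of_mem _ hz)
      · exact c true z (by show _ ∈ S true; rw [h1]; exact List.mem_cons_of_mem _ hz)
  | erase S v D x b R h hv =>
    obtain ⟨a, q, c, d⟩ := hs
    have hu : update v x [] = v := by rw [← hv]; exact update_eq_self _ _
    refine ⟨?_, fun z => ?_, ?_, ?_⟩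
    · have := a
      simp only [Solves] at this ⊢
      rw [← ev_era, ← ev_era, hu]; exact this
    · exact (Nat.add_le_add (occ_era_le _ _ _) (occ_era_le _ _ _)).trans (q z)
    · intro b z hz
      have hz' := List.mem_filter.1 hz
      refine ⟨c b z hz'.1, ?_⟩
      rintro rfl
      simpa using hz'.2
    · intro z hz
      by_cases hzx : z = x
      · rw [hzx]; exact hv
      · exact d z (fun hd => hz ⟨hd, hzx⟩)
  | sub S S' v D b x y r h hy hv =>
    obtain ⟨a, q, c, d⟩ := hs
    obtain ⟨R, R', h1, h2, h3, h4, h5⟩ := h
    have hx : x ∈ D := c b x (by show _ ∈ S b; rw [h1]; exact List.mem_cons_self)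
    refine ⟨?_, SStep.cnt_le ⟨R, R', h1, h2, h3, h4, h5⟩ q, ?_, ?_⟩
    · rw [← SStep.solves ⟨R, R', h1, h2, h3, h4, h5⟩, gr_update v x y r h3 hv]; exact a
    · have hyD : ∀ z, y = Sum.inr z → z ∈ D := fun z hz => c (!b) z (by
        show _ ∈ S (!b); rw [h2, ← hz]; exact List.mem_cons_self)
      intro b' z hz
      have hz : Sum.inr z ∈ S' b' := hz
      show z ∈ D
      have hb : b' = b ∨ b' = !b := by cases b' <;> cases b <;> simp
      rcases hb with rfl | rfl
      · rw [h4] at hz
        rcases List.mem_cons.1 hz with hz | hz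
        · rw [Sum.inr_injective hz]; exact hx
        · rcases mem_subL hz with hz | hz
          · exact hyD z hz.symm
          · exact c b' z (by show _ ∈ S b'; rw [h1]; exact List.mem_cons_of_mem _ hz)
      · rw [h5] at hz
        rcases mem_subL hz with hz | hz
        · exact hyD z hz.symm
        · exact c (!b) z (by show _ ∈ S (!b); rw [h2]; exact List.mem_cons_of_mem _ hz)
    · intro z hz
      have : z ≠ x := fun e => hz (by rw [e]; exact hx)
      show update v x r z = []
      rw [update_of_ne this]; exact d z hz

theorem Fw.len_le {s s' : St A Λ} (h : Fw s s') (hs : Valid s) : len s'.S ≤ len s.S := by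
  cases h with
  | drop S S' v D s h1 h2 => simp [len, h1, h2]; omega
  | erase S v D x b R h hv => exact Nat.add_le_add (length_era_le _ _) (length_era_le _ _)
  | sub S S' v D b x y r h hy hv => exact h.len_le hs.q

theorem Fw.of_len_eq {s s' : St A Λ} (h : Fw s s') (hl : len s'.S = len s.S) :
    s'.D = s.D ∧ ∃ b x y, SStep s.S s'.S b x y ∧ s.v = gr x y s'.v ∧ evs s'.v y ≠ [] := by
  cases h with
  | drop S S' v D s h1 h2 => simp [len, h1, h2] at hl; omega
  | erase S v D x b R h hv =>
    exfalso
    have h1 : (era x (S b)).length < (S b).length := by rw [h]; exact length_era_lt _ _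
    have h2 := length_era_le x (S (!b))
    rw [len_eq _ b, len_eq _ b] at hl
    simp only at hl
    omega
  | sub S S' v D b x y r h hy hv =>
    refine ⟨rfl, b, x, y, h, ?_, ?_⟩
    · obtain ⟨R, R', h1, h2, h3, h4, h5⟩ := h
      exact (gr_update v x y r h3 hv).symm
    · obtain ⟨R, R', h1, h2, h3, h4, h5⟩ := h
      rcases y with a | w
      · simp
      · have : w ≠ x := fun e => h3 (by rw [e])
        show evs (update v x r) (Sum.inr w) ≠ []
        rw [evs_inr, update_of_ne this]; exact hy

theorem Fw.up {φ : Mor A M} {s s' : St A Λ} (h : Fw s s')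
    (hp : PumpAt φ s'.S (fun z => φ.f (s'.v z)) s'.D) :
    PumpAt φ s.S (fun z => φ.f (s.v z)) s.D := by
  cases h with
  | drop S S' v D s h1 h2 =>
    intro κ
    obtain ⟨w, e1, e2⟩ := hp κ
    refine ⟨w, ?_, e2⟩
    have e1' : ev w (S' true) = ev w (S' false) := e1
    show ev w (S true) = ev w (S false)
    rw [h1, h2, ev_cons, ev_cons, e1']
  | erase S v D x b R h hv =>
    intro κ
    obtain ⟨w, e1, e2, z, hz, c, hc, hcz⟩ := hp κ
    have hzx : z ≠ x := hz.2
    refine ⟨update w x [], ?_, ?_, z, hz.1, c, hc, ?_⟩
    · show ev _ (S true) = ev _ (S false)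
      rw [ev_era, ev_era]; exact e1
    · intro z'
      by_cases hzx' : z' = x
      · subst hzx'; rw [update_self]; show _ = φ.f (v z'); rw [hv]
      · rw [update_of_ne hzx']; exact e2 z'
    · rw [update_of_ne hzx]; exact hcz
  | sub S S' v D b x y r h hy hv =>
    have := PumpAt.up h (update v x r) D hp
    obtain ⟨R, R', h1, h2, h3, h4, h5⟩ := h
    rw [gr_update v x y r h3 hv] at this
    exact this

variable [Fintype Λ]

def size (s : St A Λ) : ℕ := ∑ z, (s.v z).length

theorem size_update (v : Λ → List A) (x : Λ) (r : List A) :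
    ∑ z, (update v x r z).length + (v x).length = ∑ z, (v z).length + r.length := by
  classical
  rw [← Finset.add_sum_erase _ _ (Finset.mem_univ x), ← Finset.add_sum_erase _ (fun z => (v z).length) (Finset.mem_univ x)]
  rw [update_self]
  have : ∑ z ∈ Finset.univ.erase x, (update v x r z).length
      = ∑ z ∈ Finset.univ.erase x, (v z).length :=
    Finset.sum_congr rfl fun z hz => by rw [update_of_ne (Finset.ne_of_mem_erase hz)]
  rw [this]; ring

theorem Fw.meas {s s' : St A Λ} (h : Fw s s') (hs : Valid s) :
    size s' + len s'.S < size s + len s.S := by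
  cases h with
  | drop S S' v D s h1 h2 => simp [len, h1, h2, size]; omega
  | erase S v D x b R h hv =>
    have h1 : (era x (S b)).length < (S b).length := by rw [h]; exact length_era_lt _ _
    have h2 := length_era_le x (S (!b))
    rw [len_eq _ b, len_eq _ b]
    simp only [size]
    omega
  | sub S S' v D b x y r h hy hv =>
    have h1 := h.len_le hs.q
    have h2 := size_update v x r
    have h3 := List.length_pos_iff.2 hy
    rw [hv, List.length_append] at h2
    simp only [size]
    omega

theorem length_le_size (v : Λ → List A) (z : Λ) : (v z).length ≤ ∑ z, (v z).length :=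
  Finset.single_le_sum (f := fun z => (v z).length) (fun _ _ => Nat.zero_le _) (Finset.mem_univ z)

theorem Fw.size_le {s s' : St A Λ} (h : Fw s s') : size s ≤ 2 * size s' + 1 := by
  cases h with
  | drop S S' v D s h1 h2 => simp only [size]; omega
  | erase S v D x b R h hv => simp only [size]; omega
  | sub S S' v D b x y r h hy hv =>
    obtain ⟨R, R', h1, h2, h3, h4, h5⟩ := h
    have h2 := size_update v x r
    rw [hv, List.length_append] at h2
    simp only [size]
    have h6 : (evs v y).length ≤ ∑ z, (update v x r z).length + 1 := by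
      rcases y with a | w
      · simp
      · have hw : w ≠ x := fun e => h3 (by rw [e])
        have := length_le_size (update v x r) w
        rw [update_of_ne hw] at this
        rw [evs_inr]; omega
    omega

/-- terminal states -/
def Term (s : St A Λ) : Prop := s.S true = [] ∧ s.S false = []

theorem exists_fw (s : St A Λ) (hs : Valid s) (ht : ¬ Term s) : ∃ s', Fw s s' := by
  obtain ⟨S, v, D⟩ := s
  have hsol : ev v (S true) = ev v (S false) := hs.sol
  have mk : ∀ (b : Bool) (x : Λ) (y : A ⊕ Λ) (R R' : List (A ⊕ Λ)), S b = Sum.inr x :: R →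
      S (!b) = y :: R' → y ≠ Sum.inr x → evs v y ≠ [] → (evs v y).length ≤ (v x).length →
      ∃ s', Fw ⟨S, v, D⟩ s' := by
    intro b x y R R' h1 h2 h3 h4 h5
    have hsol' := (solves_iff v S b).1 hsol
    rw [h1, h2, ev_cons, ev_cons, evs_inr] at hsol'
    obtain ⟨r, hr⟩ : evs v y <+: v x := by
      refine List.prefix_of_prefix_length_le (l₃ := v x ++ ev v R) ?_ ?_ h5
      · rw [hsol']; exact List.prefix_append _ _
      · exact List.prefix_append _ _
    refine ⟨_, Fw.sub S (fun c => if c = b then Sum.inr x :: subL x y R else subL x y R') v D b x y r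
      ⟨R, R', h1, h2, h3, by simp, by simp⟩ h4 hr.symm⟩
  rcases hT : S true with _ | ⟨s, R⟩
  · rcases hF : S false with _ | ⟨t, R'⟩
    · exact absurd ⟨hT, hF⟩ ht
    · rw [hT, hF, ev_nil, ev_cons] at hsol
      have h0 := (List.append_eq_nil_iff.1 hsol.symm).1
      rcases t with a | x
      · simp at h0
      · exact ⟨_, Fw.erase S v D x false R' hF h0⟩
  · rcases hF : S false with _ | ⟨t, R'⟩
    · rw [hT, hF, ev_nil, ev_cons] at hsol
      have h0 := (List.append_eq_nil_iff.1 hsol).1
      rcases s with a | x
      · simp at h0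
      · exact ⟨_, Fw.erase S v D x true R hT h0⟩
    · by_cases hst : s = t
      · subst hst
        exact ⟨_, Fw.drop S (fun b => if b then R else R') v D s (by simp [hT]) (by simp [hF])⟩
      · by_cases hs0 : evs v s = []
        · rcases s with a | x
          · simp at hs0
          · exact ⟨_, Fw.erase S v D x true R hT hs0⟩
        by_cases ht0 : evs v t = []
        · rcases t with a | x
          · simp at ht0
          · exact ⟨_, Fw.erase S v D x false R' hF ht0⟩
        have l1 := List.length_pos_iff.2 hs0
        have l2 := List.length_pos_iff.2 ht0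
        rcases s with a | x
        · rcases t with b | y
          · rw [hT, hF, ev_cons, ev_cons] at hsol
            simp at hsol
            exact absurd (by rw [hsol.1]) hst
          · refine mk false y (Sum.inl a) R' R hF hT hst hs0 ?_
            simp only [evs_inl, evs_inr, List.length_singleton] at l2 ⊢
            exact l2
        · rcases t with b | y
          · refine mk true x (Sum.inl b) R R' hT hF (Ne.symm hst) ht0 ?_
            simp only [evs_inl, evs_inr, List.length_singleton] at l1 ⊢
            exact l1
          · rcases le_total (v y).length (v x).length with h | h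
            · exact mk true x (Sum.inr y) R R' hT hF (Ne.symm hst) ht0 h
            · exact mk false y (Sum.inr x) R' R hF hT hst hs0 h

end Pool.Agent.H860Q
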