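import Pool.Agent.H860Q.Growth

/-!
# Pumping in a periodic growth sequence
-/

set_option autoImplicit false
set_option linter.unusedSectionVars false

namespace Pool.Agent.H860Q

open Function

variable {A Λ M : Type} [DecidableEq A] [DecidableEq Λ] [Monoid M]

theorem split_occ (z : Λ) (L : List (A ⊕ Λ)) (h : occ z L = 1) :
    ∃ L1 R1, L = L1 ++ Sum.inr z :: R1 ∧ Sum.inr z ∉ L1 ∧ Sum.inr z ∉ R1 := by
  have h1 : Sum.inr z ∈ L := (occ_pos z L).1 (by omega)
  obtain ⟨L1, R1, rfl⟩ := List.append_of_mem h1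
  rw [occ_append, occ_cons, if_pos rfl] at h
  exact ⟨L1, R1, rfl, (occ_zero _ _).1 (by omega), (occ_zero _ _).1 (by omega)⟩

theorem ev_update (v : Λ → List A) (z : Λ) (w : List A) (L : List (A ⊕ Λ)) (h : Sum.inr z ∉ L) :
    ev (update v z w) L = ev v L := by
  induction L with
  | nil => rfl
  | cons s L ih =>
    rw [ev_cons, ev_cons, ih (fun e => h (List.mem_cons_of_mem _ e))]
    congr 1
    rcases s with a | x
    · rfl
    · have : x ≠ z := fun e => h (by rw [e]; exact List.mem_cons_self)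
      simp [this]

theorem pump_word [Finite M] (φ : Mor A M) (w : List A) (h : Nat.card M < w.length) :
    ∃ x y z, w = x ++ y ++ z ∧ y ≠ [] ∧ ∀ k, φ.f (x ++ pw y k ++ z) = φ.f w := by
  classical
  have := Fintype.ofFinite M
  obtain ⟨i, j, hne, he⟩ := Fintype.exists_ne_map_eq_of_card_lt
    (fun k : Fin (Nat.card M + 1) => φ.f (w.take k)) (by
      rw [Fintype.card_fin, Nat.card_eq_fintype_card]; omega)
  obtain ⟨i, j, hij, hj, he⟩ : ∃ i j : ℕ, i < j ∧ j ≤ w.length ∧ φ.f (w.take i) = φ.f (w.take j) := by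
    rcases lt_or_gt_of_ne hne with h1 | h1
    · exact ⟨i, j, h1, by have := j.2; omega, he⟩
    · exact ⟨j, i, h1, by have := i.2; omega, he.symm⟩
  obtain ⟨y, hy⟩ : ∃ y, w.take j = w.take i ++ y := by
    obtain ⟨y, hy⟩ := List.take_prefix_take_left (l := w) hij.le
    exact ⟨y, hy.symm⟩
  have hw : w = w.take i ++ y ++ w.drop j := by rw [← hy, List.take_append_drop]
  refine ⟨w.take i, y, w.drop j, hw, ?_, ?_⟩
  · rintro rfl
    have := congrArg List.length hy
    simp only [List.append_nil, List.length_take] at this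
    omega
  · intro k
    rw [hy, φ.mul] at he
    have hk : ∀ k : ℕ, φ.f (w.take i) * φ.f y ^ k = φ.f (w.take i) := by
      intro k
      induction k with
      | zero => simp
      | succ k ih => rw [pow_succ', ← mul_assoc, ← he, ih]
    calc φ.f (w.take i ++ pw y k ++ w.drop j)
        = φ.f (w.take i) * φ.f y ^ k * φ.f (w.drop j) := by rw [φ.mul, φ.mul, φ.pw]
      _ = φ.f (w.take i) * φ.f (w.drop j) := by rw [hk]
      _ = φ.f (w.take i) * φ.f y * φ.f (w.drop j) := by rw [← he]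
      _ = φ.f w := by
        conv_rhs => rw [hw]
        rw [φ.mul, φ.mul]

theorem pw_infix_append (c w : List A) (k r : ℕ) (hr : 0 < r) : pw c k <:+: pw c (r * k) ++ w := by
  obtain ⟨m, hm⟩ : ∃ m, r * k = k + m := ⟨r * k - k, by
    have := Nat.le_mul_of_pos_left k hr; omega⟩
  rw [hm, pw_add, List.append_assoc]
  exact ⟨[], pw c m ++ w, by simp⟩

theorem PumpAt.up {φ : Mor A M} {S S' : Sys A Λ} {b : Bool} {x : Λ} {y : A ⊕ Λ}
    (h : SStep S S' b x y) (V : Λ → List A) (D : Set Λ)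
    (hp : PumpAt φ S' (fun z => φ.f (V z)) D) : PumpAt φ S (fun z => φ.f (gr x y V z)) D := by
  intro κ
  obtain ⟨v, h1, h2, z, hz, c, hc, hv⟩ := hp κ
  refine ⟨gr x y v, (h.solves v).2 h1, ?_, z, hz, c, hc, hv.trans (suffix_gr _ _ _ _).isInfix⟩
  intro z
  have h2' : ∀ z, φ.f (v z) = φ.f (V z) := h2
  show φ.f (gr x y v z) = φ.f (gr x y V z)
  by_cases hzx : z = x
  · subst hzx
    rw [gr_self, gr_self, φ.mul, φ.mul, h2']
    congr 1
    rcases y with a | y
    · rfl
    · simp [h2']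
  · rw [gr_ne _ _ _ _ hzx, gr_ne _ _ _ _ hzx, h2']

theorem PumpAt.mono {φ : Mor A M} {S : Sys A Λ} {m : Λ → M} {D D' : Set Λ} (h : D ⊆ D')
    (hp : PumpAt φ S m D) : PumpAt φ S m D' := by
  intro κ
  obtain ⟨v, h1, h2, z, hz, r⟩ := hp κ
  exact ⟨v, h1, h2, z, h hz, r⟩

/-- the twist -/
theorem twist [Finite M] (φ : Mor A M) (S : Sys A Λ) (V : Λ → List A) (W : Λ) (b : Bool)
    (L1 R1 L2 R2 : List (A ⊕ Λ)) (e : M)
    (hs1 : S b = L1 ++ Sum.inr W :: R1) (hs2 : S (!b) = L2 ++ Sum.inr W :: R2)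
    (n1 : Sum.inr W ∉ L1) (n2 : Sum.inr W ∉ R1) (n3 : Sum.inr W ∉ L2) (n4 : Sum.inr W ∉ R2)
    (hsol : Solves V S) (hl : (ev V L1).length ≤ (ev V L2).length)
    (hgood : LJ e (φ.f (ev V L2 ++ V W))) (hW : LJ (φ.f (V W)) e)
    (hlong : Nat.card M < (V W).length) :
    PumpAt φ S (fun z => φ.f (V z)) {W} := by
  have hsol' := (solves_iff _ _ b).1 hsol
  rw [hs1, hs2, ev_append, ev_append, ev_cons, ev_cons, evs_inr] at hsol'
  obtain ⟨c, hc⟩ : ev V L1 <+: ev V L2 := by
    refine List.prefix_of_prefix_length_le (l₃ := ev V L1 ++ (V W ++ ev V R1)) ?_ ?_ hl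
    · exact List.prefix_append _ _
    · rw [hsol']; exact List.prefix_append _ _
  have hE : V W ++ ev V R1 = c ++ (V W ++ ev V R2) := by
    rw [← hc, List.append_assoc] at hsol'
    exact List.append_cancel_left hsol'
  have main : ∀ w : List A, w ++ ev V R1 = c ++ (w ++ ev V R2) → Solves (update V W w) S := by
    intro w hw
    rw [solves_iff _ _ b, hs1, hs2, ev_append, ev_append, ev_cons, ev_cons, evs_inr, update_self,
      ev_update _ _ _ _ n1, ev_update _ _ _ _ n2, ev_update _ _ _ _ n3, ev_update _ _ _ _ n4, hw,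
      ← hc, List.append_assoc]
  have mval : ∀ w : List A, φ.f w = φ.f (V W) → ∀ z, φ.f (update V W w z) = φ.f (V z) := by
    intro w hw z
    by_cases hz : z = W
    · subst hz; rw [update_self, hw]
    · rw [update_of_ne hz]
  by_cases hc0 : c = []
  · subst hc0
    rw [List.nil_append] at hE
    have hE' : ev V R1 = ev V R2 := List.append_cancel_left hE
    obtain ⟨x, y, z, hw, hy, hk⟩ := pump_word φ (V W) hlong
    intro κ
    refine ⟨update V W (x ++ pw y κ ++ z), main _ (by rw [hE']; simp), mval _ (hk κ), W, rfl,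
      y, hy, ?_⟩
    rw [update_self]
    exact ⟨x, z, rfl⟩
  · -- the twist
    obtain ⟨m', hm'⟩ : V W <+: c ++ V W := by
      refine List.prefix_of_prefix_length_le (l₃ := V W ++ ev V R1) ?_ ?_ (by simp)
      · exact List.prefix_append _ _
      · rw [hE, ← List.append_assoc]; exact List.prefix_append _ _
    have hcw : φ.f c * φ.f (V W) = φ.f (V W) * φ.f m' := by rw [← φ.mul, ← φ.mul, hm']
    have hle : LJ (φ.f (V W)) (φ.f c * φ.f (V W)) := by
      refine hW.trans (hgood.trans ?_)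
      rw [← hc, List.append_assoc, φ.mul, φ.mul]
      exact LJ.mul_left _ _
    obtain ⟨s, t, hst⟩ := hle
    obtain ⟨u, hu⟩ := stab s (φ.f c) (φ.f (V W)) t (by rw [mul_assoc s]; exact hst)
    have hci : ∀ i : ℕ, φ.f c ^ i * φ.f (V W) = φ.f (V W) * φ.f m' ^ i := by
      intro i
      induction i with
      | zero => simp
      | succ i ih => rw [pow_succ', mul_assoc, ih, ← mul_assoc, hcw, mul_assoc, ← pow_succ']
    have hui : ∀ i : ℕ, u * (φ.f c ^ (i + 1) * φ.f (V W)) = φ.f c ^ i * φ.f (V W) := by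
      intro i
      rw [pow_succ', mul_assoc, hci, ← mul_assoc (φ.f c), ← mul_assoc u, ← hu]
    have huk : ∀ i k : ℕ, u ^ i * (φ.f c ^ (i + k) * φ.f (V W)) = φ.f c ^ k * φ.f (V W) := by
      intro i k
      induction i with
      | zero => simp
      | succ i ih =>
        rw [pow_succ, mul_assoc, show i + 1 + k = (i + k) + 1 by ring, hui, ih]
    obtain ⟨i, j, hij, he⟩ : ∃ i j : ℕ, i < j ∧
        φ.f c ^ i * φ.f (V W) = φ.f c ^ j * φ.f (V W) := by
      obtain ⟨i, j, hne, he⟩ :=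
        Finite.exists_ne_map_eq_of_infinite (fun n : ℕ => φ.f c ^ n * φ.f (V W))
      rcases lt_or_gt_of_ne hne with h1 | h1
      · exact ⟨i, j, h1, he⟩
      · exact ⟨j, i, h1, he.symm⟩
    obtain ⟨r, rfl⟩ := Nat.exists_eq_add_of_lt hij
    have hr : φ.f c ^ (r + 1) * φ.f (V W) = φ.f (V W) := by
      have h1 := huk i 0
      rw [add_zero, he, show i + r + 1 = i + (r + 1) by ring, huk] at h1
      simpa using h1
    have hrk : ∀ k : ℕ, φ.f c ^ ((r + 1) * k) * φ.f (V W) = φ.f (V W) := by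
      intro k
      induction k with
      | zero => simp
      | succ k ih => rw [Nat.mul_succ, pow_add, mul_assoc, hr, ih]
    intro κ
    refine ⟨update V W (pw c ((r + 1) * κ) ++ V W), main _ ?_, mval _ ?_, W, rfl, c, hc0, ?_⟩
    · rw [List.append_assoc, hE]
      rw [← List.append_assoc (pw c _) c, ← pw_comm]
      simp only [List.append_assoc]
    · rw [φ.mul, φ.pw, hrk]
    · rw [update_self]; exact pw_infix_append _ _ _ _ (Nat.succ_pos r)

namespace Gr

variable {φ : Mor A M} (G : Gr φ Λ)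

theorem up (n k : ℕ) (D : Set Λ) (h : PumpAt φ (G.S n) (fun z => φ.f (G.V n z)) D) :
    PumpAt φ (G.S (n + k)) (fun z => φ.f (G.V (n + k) z)) D := by
  induction k with
  | zero => exact h
  | succ k ih =>
    rw [← add_assoc, G.hV]
    exact PumpAt.up (G.step (n + k)) _ _ ih

theorem up0 (n : ℕ) (D : Set Λ) (h : PumpAt φ (G.S n) (fun z => φ.f (G.V n z)) D) :
    PumpAt φ (G.S 0) (fun z => φ.f (G.V 0 z)) D := by
  obtain ⟨k, hk⟩ := Nat.exists_eq_add_of_le (G.le_mul n 0)
  have := G.up n k D h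
  rw [← hk] at this
  rw [G.perS'] at this
  simp only [G.perV'] at this
  exact this

theorem multi [Finite M] (hm : ∃ n, G.X (n + 1) ≠ G.X n) :
    PumpAt φ (G.S 0) (fun z => φ.f (G.V 0 z)) (Set.range G.X) := by
  obtain ⟨n0, i, -, h1, h2⟩ := G.coherent hm 0
  obtain ⟨N1, hN1⟩ := G.occ_good hm i
  obtain ⟨N2, hN2⟩ := G.long i (Nat.card M + 1)
  set n := n0 + (N1 + N2) * G.p with hn
  have hnN1 : N1 ≤ n := le_trans (by omega) (G.le_mul (N1 + N2) n0)
  have hnN2 : N2 ≤ n := le_trans (by omega) (G.le_mul (N1 + N2) n0)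
  have hS : G.S n = G.S n0 := G.perS' _ _
  rw [← hS] at h1 h2
  obtain ⟨L1, R1, e1, a1, a2⟩ := split_occ _ _ h1
  obtain ⟨L2, R2, e2, a3, a4⟩ := split_occ _ _ h2
  refine G.up0 n _ (PumpAt.mono (D := {G.X i}) (by rintro _ rfl; exact ⟨i, rfl⟩) ?_)
  have b1 : LJ G.e (φ.f (ev (G.V n) L1 ++ G.V n (G.X i))) := hN1 n hnN1 _ (ev (G.V n) R1) (by
    rw [← G.base_eq n true, e1]; simp)
  have b2 : LJ G.e (φ.f (ev (G.V n) L2 ++ G.V n (G.X i))) := hN1 n hnN1 _ (ev (G.V n) R2) (by
    rw [← G.base_eq n false, e2]; simp)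
  rcases le_total (ev (G.V n) L1).length (ev (G.V n) L2).length with h | h
  · exact twist φ _ _ _ true L1 R1 L2 R2 G.e e1 e2 a1 a2 a3 a4 (G.solves n) h b2 (G.le_e _ _)
      (hN2 n hnN2)
  · exact twist φ _ _ _ false L2 R2 L1 R1 G.e e2 e1 a3 a4 a1 a2 (G.solves n) h b1 (G.le_e _ _)
      (hN2 n hnN2)

/-- the product of the losers up to level `n` -/
def tt : ℕ → List A
  | 0 => []
  | n + 1 => evs (G.V 0) (G.Y n) ++ tt n

theorem single (hx : ∀ n, G.X (n + 1) = G.X n) :
    PumpAt φ (G.S 0) (fun z => φ.f (G.V 0 z)) (Set.range G.X) := by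
  have hX : ∀ n, G.X n = G.X 0 := by
    intro n
    induction n with
    | zero => rfl
    | succ n ih => rw [hx, ih]
  have hz : ∀ n z, z ≠ G.X 0 → G.V n z = G.V 0 z := by
    intro n z hz
    induction n with
    | zero => rfl
    | succ n ih => rw [G.hV, gr_ne _ _ _ _ (by rw [hX]; exact hz), ih]
  have hy : ∀ n, evs (G.V n) (G.Y n) = evs (G.V 0) (G.Y n) := by
    intro n
    obtain ⟨R, R', h1, h2, h3, h4, h5⟩ := G.step n
    rcases hY : G.Y n with a | y
    · rfl
    · rw [evs_inr, evs_inr, hz]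
      rintro rfl
      rw [hY] at h3
      exact h3 (by rw [hX n])
  have ht : ∀ n, G.V n (G.X 0) = G.tt n ++ G.V 0 (G.X 0) := by
    intro n
    induction n with
    | zero => simp [tt]
    | succ n ih =>
      have h1 : G.X n = G.X 0 := hX n
      rw [G.hV]
      conv_lhs => rw [← h1]
      rw [gr_self, hy, h1, ih, tt, List.append_assoc]
  have hp : ∀ n, G.tt (n + G.p) = G.tt n ++ G.tt G.p := by
    intro n
    induction n with
    | zero => simp [tt]
    | succ n ih =>
      rw [show n + 1 + G.p = (n + G.p) + 1 by ring, tt, tt, ih, G.perY, List.append_assoc]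
  have hpk : ∀ k, G.tt (k * G.p) = pw (G.tt G.p) k := by
    intro k
    induction k with
    | zero => simp [tt]
    | succ k ih => rw [Nat.succ_mul, hp, ih, pw_succ']
  have hne : G.tt G.p ≠ [] := by
    obtain ⟨q, hq⟩ : ∃ q, G.p = q + 1 := ⟨G.p - 1, by have := G.hp; omega⟩
    rw [hq, tt]
    intro h
    have := (List.append_eq_nil_iff.1 h).1
    rw [← hy] at this
    exact G.hY q this
  intro κ
  refine ⟨G.V (κ * G.p), ?_, ?_, G.X 0, ⟨0, rfl⟩, G.tt G.p, hne, ?_⟩
  · have := G.solves (0 + κ * G.p)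
    rw [G.perS'] at this
    simpa using this
  · intro z
    have := G.perV' 0 κ z
    simpa using this
  · rw [ht, hpk]
    exact ⟨[], G.V 0 (G.X 0), by simp⟩

theorem pump [Finite M] : PumpAt φ (G.S 0) (fun z => φ.f (G.V 0 z)) (Set.range G.X) := by
  by_cases h : ∃ n, G.X (n + 1) ≠ G.X n
  · exact G.multi h
  · push Not at h
    exact G.single h

end Gr

end Pool.Agent.H860Q
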