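import Pool.Agent.H860Q.Core

/-!
# Rational subsets of a free group (Benois)
-/

set_option autoImplicit false
set_option linter.unusedSectionVars false

namespace Pool.Agent.H860Q

open Function

variable {A : Type} [DecidableEq A]

/-- A subset of the free group is rational if it is the image of a regular language over
`A ∪ A⁻¹`. -/
def IsRat (L : Set (FreeGroup A)) : Prop :=
  ∃ R : Language (A × Bool), R.IsRegular ∧ L = {g | ∃ w ∈ R, FreeGroup.mk w = g}

theorem split_of_reduced (w u : List (A × Bool)) (a : A × Bool)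
    (h : FreeGroup.reduce w = u ++ [a]) :
    ∃ w1 w2, w = w1 ++ a :: w2 ∧ FreeGroup.mk w1 = FreeGroup.mk u ∧
      FreeGroup.mk w2 = (1 : FreeGroup A) := by
  induction w generalizing u with
  | nil => simp at h
  | cons b w ih =>
    rw [FreeGroup.reduce.cons] at h
    rcases hr : FreeGroup.reduce w with _ | ⟨c, t⟩
    · rw [hr] at h
      simp only at h
      have hu : u = [] := by
        rcases u with _ | ⟨x, u⟩
        · rfl
        · simp at h
      subst hu
      have hab : b = a := by simpa using h
      subst hab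
      refine ⟨[], w, rfl, rfl, ?_⟩
      rw [← FreeGroup.reduce.self, hr]; rfl
    · rw [hr] at h
      simp only at h
      by_cases hbc : b.1 = c.1 ∧ b.2 = !c.2
      · rw [if_pos hbc] at h
        obtain ⟨w1, w2, e1, e2, e3⟩ := ih (c :: u) (by rw [hr, h]; rfl)
        refine ⟨b :: w1, w2, by rw [e1]; rfl, ?_, e3⟩
        have hb : b = (c.1, !c.2) := Prod.ext hbc.1 hbc.2
        calc FreeGroup.mk (b :: w1) = FreeGroup.mk [b] * FreeGroup.mk w1 := by
              rw [FreeGroup.mul_mk]; rfl
          _ = FreeGroup.mk [b] * FreeGroup.mk (c :: u) := by rw [e2]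
          _ = FreeGroup.mk (b :: c :: u) := by rw [FreeGroup.mul_mk]; rfl
          _ = FreeGroup.mk u := by
              rw [hb]
              exact Quot.sound (by
                have := @FreeGroup.Red.Step.not A [] u c.1 (!c.2)
                simpa using this)
      · rw [if_neg hbc] at h
        rcases u with _ | ⟨x, u⟩
        · simp at h
        · have h1 : b = x := (List.cons.inj h).1
          have h2 : c :: t = u ++ [a] := (List.cons.inj h).2
          obtain ⟨w1, w2, e1, e2, e3⟩ := ih u (by rw [hr, h2])
          refine ⟨b :: w1, w2, by rw [e1]; rfl, ?_, e3⟩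
          rw [← h1]
          calc FreeGroup.mk (b :: w1) = FreeGroup.mk [b] * FreeGroup.mk w1 := by
                rw [FreeGroup.mul_mk]; rfl
            _ = FreeGroup.mk [b] * FreeGroup.mk u := by rw [e2]
            _ = FreeGroup.mk (b :: u) := by rw [FreeGroup.mul_mk]; rfl

/-- The states reachable from `S` by a word representing the letter `a`. -/
def detStep {σ : Type} (D : DFA (A × Bool) σ) (S : Set σ) (a : A × Bool) : Set σ :=
  {q | ∃ p ∈ S, ∃ w, FreeGroup.mk w = (1 : FreeGroup A) ∧ D.evalFrom (D.step p a) w = q}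

def detStart {σ : Type} (D : DFA (A × Bool) σ) : Set σ :=
  {q | ∃ w, FreeGroup.mk w = (1 : FreeGroup A) ∧ D.evalFrom D.start w = q}

theorem evalFrom_append' {σ : Type} (D : DFA (A × Bool) σ) (s : σ) (x y : List (A × Bool)) :
    D.evalFrom s (x ++ y) = D.evalFrom (D.evalFrom s x) y := by
  simp [DFA.evalFrom]

theorem benois {σ : Type} (D : DFA (A × Bool) σ) (u : List (A × Bool))
    (hu : FreeGroup.reduce u = u) :
    u.foldl (detStep D) (detStart D) =
      {q | ∃ w, FreeGroup.mk w = FreeGroup.mk u ∧ D.evalFrom D.start w = q} := by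
  induction u using List.reverseRecOn with
  | nil => rfl
  | append_singleton u a ih =>
    have hu' : FreeGroup.reduce u = u := by
      have h1 := FreeGroup.isReduced_iff_reduce_eq.2 hu
      exact FreeGroup.isReduced_iff_reduce_eq.1 (List.IsChain.left_of_append h1)
    rw [List.foldl_append, List.foldl_cons, List.foldl_nil, ih hu']
    ext q
    simp only [detStep, Set.mem_ofPred_eq]
    constructor
    · rintro ⟨p, ⟨w1, e1, rfl⟩, w2, e2, rfl⟩
      refine ⟨w1 ++ a :: w2, ?_, ?_⟩
      · rw [show w1 ++ a :: w2 = w1 ++ [a] ++ w2 by simp, ← FreeGroup.mul_mk, ← FreeGroup.mul_mk, e1,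
          e2, mul_one, FreeGroup.mul_mk]
      · rw [evalFrom_append']; rfl
    · rintro ⟨w, e, rfl⟩
      obtain ⟨w1, w2, e1, e2, e3⟩ := split_of_reduced w u a (by
        rw [FreeGroup.reduce.sound e, hu])
      exact ⟨D.evalFrom D.start w1, ⟨w1, e2, rfl⟩, w2, e3, by
        rw [e1, evalFrom_append']; rfl⟩

/-- the finite monoid of a family of transition functions -/
@[ext] structure TM {ι : Type} (Q : ι → Type) where
  f : ∀ i, Q i → Q i

instance {ι : Type} (Q : ι → Type) : Monoid (TM Q) where
  mul a b := ⟨fun i s => b.f i (a.f i s)⟩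
  one := ⟨fun _ s => s⟩
  mul_assoc _ _ _ := rfl
  one_mul _ := rfl
  mul_one _ := rfl

/-- the transition morphism -/
def tmor {ι B : Type} (Q : ι → Type) (step : ∀ i, Q i → B → Q i) : Mor B (TM Q) where
  f w := ⟨fun i => fun s => w.foldl (step i) s⟩
  one := rfl
  mul x y := by
    ext i s
    show (x ++ y).foldl (step i) s = y.foldl (step i) (x.foldl (step i) s)
    rw [List.foldl_append]

theorem tmor_eq {ι B : Type} (Q : ι → Type) (step : ∀ i, Q i → B → Q i) (x y : List B)
    (h : (tmor Q step).f x = (tmor Q step).f y) (i : ι) (s : Q i) :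
    x.foldl (step i) s = y.foldl (step i) s := by
  have := congrArg (fun t : TM Q => t.f i s) h
  exact this

instance {ι : Type} [Finite ι] (Q : ι → Type) [∀ i, Finite (Q i)] : Finite (TM Q) :=
  Finite.of_injective (fun t : TM Q => t.f) (fun _ _ h => TM.ext h)

end Pool.Agent.H860Q
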